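import Mathlib

/-!
# Growth dynamics on the quarter plane: the number of steps is bounded in terms of the square

Abstract form: a point is added when `P (row count) (column count)` holds.
-/

namespace Q10.Growth

open Set

/-- number of points of `A` in row `j` -/
noncomputable def R (A : Set (ℕ × ℕ)) (j : ℕ) : ℕ∞ := {i | (i, j) ∈ A}.encard

/-- number of points of `A` in column `i` -/
noncomputable def C (A : Set (ℕ × ℕ)) (i : ℕ) : ℕ∞ := {j | (i, j) ∈ A}.encard

/-- one step -/
def G (P : ℕ∞ → ℕ∞ → Prop) (A : Set (ℕ × ℕ)) : Set (ℕ × ℕ) :=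
  A ∪ {x | P (R A x.2) (C A x.1)}

/-- reflection -/
def sw (A : Set (ℕ × ℕ)) : Set (ℕ × ℕ) := {x | (x.2, x.1) ∈ A}

/-- rows to which a column with `d` points is attached -/
def H (P : ℕ∞ → ℕ∞ → Prop) (A : Set (ℕ × ℕ)) (d : ℕ) : Set ℕ := {j | P (R A j) d}

/-- half of the potential -/
noncomputable def pot (P : ℕ∞ → ℕ∞ → Prop) (s : ℕ) (A : Set (ℕ × ℕ)) : ℕ :=
  ∑ d ∈ Finset.range s, (min (H P A d).encard ((d + 1 : ℕ) : ℕ∞)).toNat

/-- the conditions on `P` -/
structure Good (P : ℕ∞ → ℕ∞ → Prop) (s : ℕ) : Prop where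
  mono : ∀ m n m' n', m ≤ m' → n ≤ n' → P m n → P m' n'
  big : ∀ m n, (s : ℕ∞) ≤ m → (s : ℕ∞) ≤ n → P m n
  left : ∀ (m : ℕ∞) (d : ℕ), d < s → P m d → (s : ℕ∞) ≤ m
  right : ∀ (e : ℕ) (n : ℕ∞), e < s → P e n → (s : ℕ∞) ≤ n

theorem Good.flip {P : ℕ∞ → ℕ∞ → Prop} {s : ℕ} (h : Good P s) : Good (fun m n => P n m) s where
  mono m n m' n' h1 h2 h3 := h.mono _ _ _ _ h2 h1 h3
  big m n h1 h2 := h.big _ _ h2 h1
  left m d hd hp := h.right _ _ hd hp
  right e n he hp := h.left _ _ he hp

theorem R_mono {A B : Set (ℕ × ℕ)} (h : A ⊆ B) (j : ℕ) : R A j ≤ R B j :=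
  Set.encard_le_encard fun _ hi => h hi

theorem C_mono {A B : Set (ℕ × ℕ)} (h : A ⊆ B) (j : ℕ) : C A j ≤ C B j :=
  Set.encard_le_encard fun _ hi => h hi

theorem G_sub (P : ℕ∞ → ℕ∞ → Prop) (A : Set (ℕ × ℕ)) : A ⊆ G P A := subset_union_left

theorem G_sw (P : ℕ∞ → ℕ∞ → Prop) (A : Set (ℕ × ℕ)) :
    G (fun m n => P n m) (sw A) = sw (G P A) := by
  ext x
  rfl

theorem iter_sw (P : ℕ∞ → ℕ∞ → Prop) (A : Set (ℕ × ℕ)) (n : ℕ) :
    (G (fun m n => P n m))^[n] (sw A) = sw ((G P)^[n] A) := by
  induction n with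
  | zero => rfl
  | succ n ih => rw [Function.iterate_succ_apply', Function.iterate_succ_apply', ih, G_sw]

theorem iter_sub (P : ℕ∞ → ℕ∞ → Prop) (A : Set (ℕ × ℕ)) {m n : ℕ} (h : m ≤ n) :
    (G P)^[m] A ⊆ (G P)^[n] A := by
  induction n, h using Nat.le_induction with
  | base => exact subset_rfl
  | succ n _ ih =>
    rw [Function.iterate_succ_apply']
    exact ih.trans (G_sub P _)

variable {P : ℕ∞ → ℕ∞ → Prop} {s : ℕ}

theorem H_mono (hP : Good P s) {A B : Set (ℕ × ℕ)} (h : A ⊆ B) (d : ℕ) : H P A d ⊆ H P B d :=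
  fun j hj => hP.mono _ _ _ _ (R_mono h j) le_rfl hj

theorem term_mono (hP : Good P s) {A B : Set (ℕ × ℕ)} (h : A ⊆ B) (d : ℕ) :
    (min (H P A d).encard ((d + 1 : ℕ) : ℕ∞)).toNat ≤
      (min (H P B d).encard ((d + 1 : ℕ) : ℕ∞)).toNat := by
  apply ENat.toNat_le_toNat
  · exact min_le_min (Set.encard_le_encard (H_mono hP h d)) le_rfl
  · exact ne_top_of_le_ne_top (ENat.natCast_ne_top _) (min_le_right _ _)

theorem pot_mono (hP : Good P s) {A B : Set (ℕ × ℕ)} (h : A ⊆ B) : pot P s A ≤ pot P s B :=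
  Finset.sum_le_sum fun d _ => term_mono hP h d

theorem pot_le (A : Set (ℕ × ℕ)) : 2 * pot P s A ≤ s * (s + 1) := by
  have h1 : pot P s A ≤ ∑ d ∈ Finset.range s, (d + 1) := by
    apply Finset.sum_le_sum
    intro d _
    have : (min (H P A d).encard ((d + 1 : ℕ) : ℕ∞)).toNat ≤ (((d + 1 : ℕ) : ℕ∞)).toNat :=
      ENat.toNat_le_toNat (min_le_right _ _) (ENat.natCast_ne_top _)
    rwa [ENat.toNat_natCast] at this
  have h2 : ∀ n : ℕ, 2 * ∑ d ∈ Finset.range n, (d + 1) = n * (n + 1) := by
    intro n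
    induction n with
    | zero => simp
    | succ n ih =>
      rw [Finset.sum_range_succ, mul_add, ih]
      ring
  have := h2 s
  omega

/-- column `i` has `d` points and contains all rows of `H d` -/
def Frozen (P : ℕ∞ → ℕ∞ → Prop) (A : Set (ℕ × ℕ)) (i d : ℕ) : Prop :=
  C A i = d ∧ ∀ j, P (R A j) d → (i, j) ∈ A

theorem H_eq (hP : Good P s) {A B : Set (ℕ × ℕ)} (h : A ⊆ B) (hpot : pot P s A = pot P s B)
    {i d : ℕ} (hd : d < s) (hF : Frozen P A i d) : H P B d = H P A d := by
  have hterm : (min (H P A d).encard ((d + 1 : ℕ) : ℕ∞)).toNat =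
      (min (H P B d).encard ((d + 1 : ℕ) : ℕ∞)).toNat := by
    have := (Finset.sum_eq_sum_iff_of_le (fun d _ => term_mono hP h d)).1 hpot
    exact this d (Finset.mem_range.2 hd)
  have hA : (H P A d).encard ≤ d := by
    rw [← hF.1]
    exact Set.encard_le_encard fun j hj => hF.2 j hj
  have hAf : (H P A d).Finite := Set.finite_of_encard_le_coe hA
  have h1 : min (H P A d).encard ((d + 1 : ℕ) : ℕ∞) = (H P A d).encard :=
    min_eq_left (hA.trans (by exact_mod_cast Nat.le_succ d))
  have h2 : min (H P B d).encard ((d + 1 : ℕ) : ℕ∞) = (H P A d).encard := by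
    have hx : min (H P B d).encard ((d + 1 : ℕ) : ℕ∞) ≠ ⊤ :=
      ne_top_of_le_ne_top (ENat.natCast_ne_top _) (min_le_right _ _)
    have hy : (H P A d).encard ≠ ⊤ := ne_top_of_le_ne_top (ENat.natCast_ne_top _) hA
    rw [h1] at hterm
    rw [← ENat.natCast_toNat hx, ← ENat.natCast_toNat hy, hterm]
  have h3 : (H P B d).encard ≤ (H P A d).encard := by
    rcases min_choice (H P B d).encard ((d + 1 : ℕ) : ℕ∞) with h4 | h4
    · rw [← h2, h4]
    · exfalso
      rw [h4] at h2
      rw [← h2] at hA
      have : d + 1 ≤ d := by exact_mod_cast hA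
      omega
  exact (hAf.eq_of_subset_of_encard_le (H_mono hP h d) h3).symm

/-- a frozen column is not changed by a step -/
theorem Frozen.col_eq {A : Set (ℕ × ℕ)} {i d : ℕ} (hF : Frozen P A i d) :
    {j | (i, j) ∈ G P A} = {j | (i, j) ∈ A} := by
  ext j
  constructor
  · rintro (h | h)
    · exact h
    · have h' : P (R A j) (C A i) := h
      rw [hF.1] at h'
      exact hF.2 j h'
  · intro h
    exact Or.inl h

theorem Frozen.step (hP : Good P s) {A : Set (ℕ × ℕ)} (hpot : pot P s A = pot P s (G P A))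
    {i d : ℕ} (hd : d < s) (hF : Frozen P A i d) : Frozen P (G P A) i d := by
  have hH := H_eq hP (G_sub P A) hpot hd hF
  refine ⟨?_, ?_⟩
  · rw [C, hF.col_eq]
    exact hF.1
  · intro j hj
    have : j ∈ H P (G P A) d := hj
    rw [hH] at this
    exact Or.inl (hF.2 j this)

theorem pot_const (hP : Good P s) (A : Set (ℕ × ℕ)) {N : ℕ}
    (hpot : pot P s A = pot P s ((G P)^[N] A)) {m n : ℕ} (hm : m ≤ n) (hn : n ≤ N) :
    pot P s ((G P)^[m] A) = pot P s ((G P)^[n] A) := by
  have h1 : pot P s A ≤ pot P s ((G P)^[m] A) := pot_mono hP (iter_sub P A (Nat.zero_le m))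
  have h2 := pot_mono hP (iter_sub P A hm)
  have h3 := pot_mono hP (iter_sub P A hn)
  omega

/-- after `n` steps with constant potential a column is frozen or has at least `n` points -/
theorem progress (hP : Good P s) (A : Set (ℕ × ℕ)) {N : ℕ}
    (hpot : pot P s A = pot P s ((G P)^[N] A)) (i : ℕ) :
    ∀ n, n ≤ N → n ≤ s →
      (∃ d, d < s ∧ Frozen P ((G P)^[n] A) i d) ∨ (n : ℕ∞) ≤ C ((G P)^[n] A) i := by
  intro n
  induction n with
  | zero => intro _ _; right; simp
  | succ n ih =>
    intro hN hs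
    have hstep : pot P s ((G P)^[n] A) = pot P s (G P ((G P)^[n] A)) := by
      rw [← Function.iterate_succ_apply' (G P)]
      exact pot_const hP A hpot (Nat.le_succ n) hN
    rw [Function.iterate_succ_apply']
    rcases ih (by omega) (by omega) with ⟨d, hd, hF⟩ | h
    · exact Or.inl ⟨d, hd, hF.step hP hstep hd⟩
    · rcases h.lt_or_eq with h | h
      · right
        refine le_trans ?_ (C_mono (G_sub P _) i)
        have := Order.add_one_le_of_lt h
        exact_mod_cast this
      · by_cases hF : Frozen P ((G P)^[n] A) i n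
        · exact Or.inl ⟨n, by omega, hF.step hP hstep (by omega)⟩
        · right
          have : ∃ j, P (R ((G P)^[n] A) j) n ∧ (i, j) ∉ (G P)^[n] A := by
            by_contra hcon
            push Not at hcon
            exact hF ⟨h.symm, hcon⟩
          obtain ⟨j, hj1, hj2⟩ := this
          have hfin : {j | (i, j) ∈ (G P)^[n] A}.Finite := by
            apply Set.finite_of_encard_le_coe (k := n)
            exact h.symm.le
          have hss : {j | (i, j) ∈ (G P)^[n] A} ⊂ {j | (i, j) ∈ G P ((G P)^[n] A)} := by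
            refine ⟨fun j hj => G_sub P _ hj, fun hsub => hj2 ?_⟩
            apply hsub
            right
            change P (R ((G P)^[n] A) j) (C ((G P)^[n] A) i)
            rw [← h]
            exact hj1
          have := hfin.encard_lt_encard hss
          have h5 : (n : ℕ∞) < C (G P ((G P)^[n] A)) i := by
            rw [h]
            exact this
          have := Order.add_one_le_of_lt h5
          exact_mod_cast this

/-- constant potential over `s + 1` steps: fixed point -/
theorem fixed_of_const (hP : Good P s) (A : Set (ℕ × ℕ))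
    (h1 : pot P s A = pot P s ((G P)^[s + 1] A))
    (h2 : pot (fun m n => P n m) s (sw A) =
      pot (fun m n => P n m) s (sw ((G P)^[s + 1] A))) :
    G P ((G P)^[s + 1] A) = (G P)^[s + 1] A := by
  have h2' : pot (fun m n => P n m) s (sw A) =
      pot (fun m n => P n m) s ((G (fun m n => P n m))^[s + 1] (sw A)) := by
    rw [iter_sw]
    exact h2
  apply Set.Subset.antisymm _ (G_sub P _)
  rintro ⟨i, j⟩ (h | h)
  · exact h
  · have hPij : P (R ((G P)^[s + 1] A) j) (C ((G P)^[s + 1] A) i) := h
    rcases progress hP A h1 i s (by omega) le_rfl with ⟨d, hd, hF⟩ | hC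
    · have hstep : pot P s ((G P)^[s] A) = pot P s (G P ((G P)^[s] A)) := by
        rw [← Function.iterate_succ_apply' (G P)]
        exact pot_const hP A h1 (Nat.le_succ s) le_rfl
      have hF' := hF.step hP hstep hd
      rw [← Function.iterate_succ_apply' (G P)] at hF'
      rw [hF'.1] at hPij
      exact hF'.2 j hPij
    · rcases progress hP.flip (sw A) h2' j s (by omega) le_rfl with ⟨d, hd, hF⟩ | hR
      · have hstep : pot (fun m n => P n m) s ((G (fun m n => P n m))^[s] (sw A)) =
            pot (fun m n => P n m) s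
              (G (fun m n => P n m) ((G (fun m n => P n m))^[s] (sw A))) := by
          rw [← Function.iterate_succ_apply' (G (fun m n => P n m))]
          exact pot_const hP.flip (sw A) h2' (Nat.le_succ s) le_rfl
        have hF' := hF.step hP.flip hstep hd
        rw [← Function.iterate_succ_apply' (G (fun m n => P n m)), iter_sw] at hF'
        have hc : R ((G P)^[s + 1] A) j = d := hF'.1
        rw [hc] at hPij
        exact hF'.2 i hPij
      · rw [iter_sw] at hR
        have hR' : (s : ℕ∞) ≤ R ((G P)^[s] A) j := hR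
        rw [Function.iterate_succ_apply']
        right
        exact hP.big _ _ hR' hC

theorem eq_univ_of_fixed (A : Set (ℕ × ℕ)) (hA : ⋃ t, (G P)^[t] A = univ) (k : ℕ)
    (h : G P ((G P)^[k] A) = (G P)^[k] A) : (G P)^[k] A = univ := by
  have h1 : ∀ n, (G P)^[k + n] A = (G P)^[k] A := by
    intro n
    induction n with
    | zero => rfl
    | succ n ih => rw [← add_assoc, Function.iterate_succ_apply', ih, h]
  apply Set.eq_univ_of_univ_subset
  rw [← hA]
  apply Set.iUnion_subset
  intro t
  rcases le_total t k with ht | ht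
  · exact iter_sub P A ht
  · obtain ⟨n, rfl⟩ := Nat.exists_eq_add_of_le ht
    rw [h1]

theorem bound (hP : Good P s) (A : Set (ℕ × ℕ)) (hA : ⋃ t, (G P)^[t] A = univ) :
    (G P)^[(s + 1) * (s ^ 2 + s + 1)] A = univ := by
  have key : ∀ k, (G P)^[(s + 1) * k] A = univ ∨
      k ≤ pot P s ((G P)^[(s + 1) * k] A) +
        pot (fun m n => P n m) s (sw ((G P)^[(s + 1) * k] A)) := by
    intro k
    induction k with
    | zero => right; omega
    | succ k ih =>
      rcases ih with h | h
      · left
        apply Set.eq_univ_of_univ_subset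
        rw [← h]
        exact iter_sub P A (by nlinarith)
      · obtain ⟨B, hB⟩ : ∃ B, B = (G P)^[(s + 1) * k] A := ⟨_, rfl⟩
        have hB' : (G P)^[(s + 1) * (k + 1)] A = (G P)^[s + 1] B := by
          rw [hB, ← Function.iterate_add_apply]
          congr 2
          ring
        rw [hB']
        rw [← hB] at h
        have hsub : B ⊆ (G P)^[s + 1] B := iter_sub P B (Nat.zero_le _)
        have h1 := pot_mono hP hsub
        have h2 := pot_mono hP.flip (A := sw B) (B := sw ((G P)^[s + 1] B)) (fun x hx => hsub hx)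
        by_cases hc : pot P s B = pot P s ((G P)^[s + 1] B) ∧
            pot (fun m n => P n m) s (sw B) = pot (fun m n => P n m) s (sw ((G P)^[s + 1] B))
        · left
          have hf := fixed_of_const hP B hc.1 hc.2
          rw [← hB'] at hf ⊢
          exact eq_univ_of_fixed A hA _ hf
        · right
          by_contra hlt
          apply hc
          constructor <;> omega
  rcases key (s ^ 2 + s + 1) with h | h
  · exact h
  · exfalso
    have h1 := pot_le (P := P) (s := s) ((G P)^[(s + 1) * (s ^ 2 + s + 1)] A)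
    have h2 := pot_le (P := fun m n => P n m) (s := s) (sw ((G P)^[(s + 1) * (s ^ 2 + s + 1)] A))
    have h3 : s * (s + 1) = s ^ 2 + s := by ring
    omega

end Q10.Growth
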